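import Pool.Agent.Helper9.GW.Key

/-!
# From `k` to `x`
-/

set_option autoImplicit false

namespace Pool.Agent.Helper9.GW

open Finset Nat Filter

theorem par_eventually : ∀ᶠ k : ℕ in atTop,
    Par k (Real.log k) (Real.log (Real.log k)) (Real.log (Real.log (Real.log k))) := by
  have hcast : Tendsto (fun k : ℕ => (k : ℝ)) atTop atTop := tendsto_natCast_atTop_atTop
  have t1 : Tendsto (fun k : ℕ => Real.log k) atTop atTop := Real.tendsto_log_atTop.comp hcast
  have t2 : Tendsto (fun k : ℕ => Real.log (Real.log k)) atTop atTop :=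
    Real.tendsto_log_atTop.comp t1
  have t3 : Tendsto (fun k : ℕ => Real.log (Real.log (Real.log k))) atTop atTop :=
    Real.tendsto_log_atTop.comp t2
  have hgrow : ∀ᶠ l : ℝ in atTop, l ^ 4 ≤ Real.exp (l / 2) := by
    have h1 := isLittleO_pow_exp_pos_mul_atTop (k := 4) (b := 1 / 2) (by norm_num)
    have h2 := h1.bound (c := 1) one_pos
    filter_upwards [h2, eventually_ge_atTop 0] with l hl hl0
    rw [Real.norm_of_nonneg (by positivity), Real.norm_of_nonneg (Real.exp_pos _).le, one_mul] at hl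
    convert hl using 2
    ring
  have hε : 0 < 2 - Real.log 4 := by
    have : Real.log 4 = 2 * Real.log 2 := by
      rw [show (4 : ℝ) = 2 ^ 2 by norm_num, Real.log_pow]; norm_num
    have := Real.log_two_lt_d9
    linarith
  obtain ⟨t₀, ht₀⟩ := eventually_atTop.1 (Chebyshev.eventually_primeCounting_le hε)
  have t4 : Tendsto (fun k : ℕ => Real.exp (Real.log k / 2)) atTop atTop :=
    Real.tendsto_exp_atTop.comp (t1.atTop_div_const (by norm_num))
  have hlow : ∀ᶠ k : ℕ in atTop, Real.log ((k : ℝ) + 1) ≤ (1 / 10) * k := by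
    have h1 := (Real.isLittleO_log_id_atTop).bound (c := 1 / 20) (by norm_num)
    have h2 : Tendsto (fun k : ℕ => (k : ℝ) + 1) atTop atTop :=
      tendsto_atTop_add_const_right _ _ hcast
    filter_upwards [h2.eventually h1, eventually_ge_atTop 1] with k hk hk1
    have hk1' : (1 : ℝ) ≤ k := by exact_mod_cast hk1
    simp only [id] at hk
    rw [Real.norm_of_nonneg (Real.log_nonneg (by linarith)),
      Real.norm_of_nonneg (by linarith)] at hk
    linarith
  filter_upwards [t1.eventually hgrow, t1.eventually_ge_atTop 1, t2.eventually_ge_atTop 1,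
    t3.eventually_ge_atTop 8, t4.eventually_ge_atTop t₀, hlow, eventually_ge_atTop 2]
    with k g1 g2 g3 g4 g5 g6 g7
  have hk : (2 : ℝ) ≤ k := by exact_mod_cast g7
  refine ⟨rfl, rfl, rfl, by linarith, by linarith, g4, by omega, g1, ?_, ?_⟩
  · intro t ht
    have := ht₀ t (g5.trans ht)
    have e : Real.log 4 + (2 - Real.log 4) = 2 := by ring
    rwa [e] at this
  · refine le_trans ?_ (Chebyshev.pi_ge k)
    have hl0 : 0 < Real.log k := by linarith
    rw [div_le_div_iff₀ (by positivity) hl0]
    have := Real.log_two_gt_d9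
    have h1 : (k : ℝ) / 2 ≤ k * Real.log 2 - Real.log (k + 1) := by nlinarith
    nlinarith

/-- the weights of the two ranges -/
noncomputable def wt (x : ℕ) : ℝ :=
  Real.log (Real.log (Real.log x)) ^ 2 /
    (Real.log (Real.log x) * Real.log (Real.log (Real.log (Real.log x))))

theorem modulus_le (k : ℕ) : modulus k ≤ 4 ^ k := by
  refine le_trans ?_ (primorial_le_four_pow k)
  unfold modulus primorial
  refine Finset.prod_le_prod_of_subset_of_one_le' ?_ ?_
  · intro ℓ hℓ
    have h := mem_oddPrimes.1 hℓ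
    rw [mem_filter, mem_range]
    exact ⟨by omega, h.1⟩
  · intro ℓ hℓ _
    exact (mem_filter.1 hℓ).2.pos

open Classical in
/-- the number of `n ≤ x` such that `2 n` is not `q + r` with `q ∈ S`, `r` prime -/
noncomputable def repFree (S : Finset ℕ) (x : ℕ) : ℕ :=
  ((Finset.Ioc 0 x).filter (fun n => ∀ q ∈ S, ∀ r : ℕ, r.Prime → q + r ≠ 2 * n)).card

theorem repFree_le {S : Finset ℕ} {x : ℕ} (E : Finset ℕ)
    (h : ∀ n, 0 < n → n ≤ x → (∀ q ∈ S, ∀ r : ℕ, r.Prime → q + r ≠ 2 * n) → n ∈ E) :
    repFree S x ≤ E.card := by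
  classical
  unfold repFree
  refine Finset.card_le_card fun n hn => ?_
  rw [mem_filter, mem_Ioc] at hn
  exact h n hn.1.1 hn.1.2 hn.2

/-- the main theorem for arbitrary finite sets of odd primes -/
theorem main (B : ℕ) : ∃ c : ℝ, 0 < c ∧ ∀ᶠ x : ℕ in atTop, ∀ (S : Finset ℕ) (Y : ℕ),
    (∀ q ∈ S, q.Prime ∧ q ≠ 2) → (Y : ℝ) ≤ Real.log x * Real.log (Real.log x) ^ B →
    wt x * ((S.filter (fun q => q ≤ Y)).card : ℝ) + ((S.filter (fun q => ¬ q ≤ Y)).card : ℝ) ≤
      c * Real.log x →
    √(x : ℝ) + 2 ≤ repFree S x := by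
  refine ⟨1 / (32 * 23056 * (B + 6)), by positivity, ?_⟩
  have hcast : Tendsto (fun k : ℕ => (k : ℝ)) atTop atTop := tendsto_natCast_atTop_atTop
  have t1 : Tendsto (fun k : ℕ => Real.log k) atTop atTop := Real.tendsto_log_atTop.comp hcast
  have t2 : Tendsto (fun k : ℕ => Real.log (Real.log k)) atTop atTop :=
    Real.tendsto_log_atTop.comp t1
  have t3 : Tendsto (fun k : ℕ => Real.log (Real.log (Real.log k))) atTop atTop :=
    Real.tendsto_log_atTop.comp t2
  have t4 : Tendsto (fun k : ℕ => Real.log (Real.log (Real.log (Real.log k)))) atTop atTop :=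
    Real.tendsto_log_atTop.comp t3
  have hk : Tendsto (fun x : ℕ => ⌊Real.log x / 4⌋₊) atTop atTop :=
    tendsto_nat_floor_atTop.comp (t1.atTop_div_const (by norm_num))
  filter_upwards [hk.eventually par_eventually, t1.eventually_ge_atTop 40,
    t2.eventually_ge_atTop (32 * 2 ^ B + 10), t3.eventually_ge_atTop 4, t4.eventually_ge_atTop 4,
    eventually_ge_atTop 1] with x hpar g1 g2 g3 g4 hx1 S Y hS hY hc
  set k := ⌊Real.log x / 4⌋₊ with hkdef
  set L1 := Real.log x with hL1
  set L2 := Real.log L1 with hL2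
  set L3 := Real.log L2 with hL3
  set L4 := Real.log L3 with hL4
  set l := Real.log k with hl
  set l2 := Real.log l with hl2
  set l3 := Real.log l2 with hl3
  have h2B : (1 : ℝ) ≤ 2 ^ B := one_le_pow₀ (by norm_num)
  have hL42 : 42 ≤ L2 := by linarith
  have hku : (k : ℝ) ≤ L1 / 4 := Nat.floor_le (by linarith)
  have hkl : L1 / 8 ≤ (k : ℝ) := by
    have := Nat.lt_floor_add_one (L1 / 4)
    rw [← hkdef] at this
    linarith
  have hk0 : (0 : ℝ) < k := by linarith
  have hl1 : L2 / 2 ≤ l := by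
    have h1 : Real.log (L1 / 8) ≤ l := Real.log_le_log (by linarith) hkl
    rw [Real.log_div (by linarith) (by norm_num)] at h1
    have h8 : Real.log 8 ≤ 3 := by
      have : Real.log 8 = 3 * Real.log 2 := by
        rw [show (8 : ℝ) = 2 ^ 3 by norm_num, Real.log_pow]; norm_num
      have := Real.log_two_lt_d9
      linarith
    linarith
  have hlu : l ≤ L2 := Real.log_le_log hk0 (by linarith)
  have hlog2 : Real.log 2 ≤ 1 := by
    have := Real.log_two_lt_d9
    linarith
  have hl2l : L3 / 2 ≤ l2 := by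
    have h1 : Real.log (L2 / 2) ≤ l2 := Real.log_le_log (by linarith) hl1
    rw [Real.log_div (by linarith) (by norm_num)] at h1
    linarith
  have hl2u : l2 ≤ L3 := Real.log_le_log (by linarith) hlu
  have hl3l : L4 / 2 ≤ l3 := by
    have h1 : Real.log (L3 / 2) ≤ l3 := Real.log_le_log (by linarith) hl2l
    rw [Real.log_div (by linarith) (by norm_num)] at h1
    linarith
  have p1 : 0 < l := by linarith
  have p2 : 0 < l2 := by linarith
  have p3 : 0 < l3 := by linarith
  have hkey := hpar.key (B + 1) S hS Y ?_ ?_ x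
  · -- conclusion
    have hM := modulus_le k
    have hMpos : 0 < modulus k := Finset.prod_pos fun ℓ hℓ => (mem_oddPrimes.1 hℓ).1.pos
    have hpi : Nat.primeCounting k ≤ k := by
      rw [← Nat.primesLE_card_eq_primeCounting]
      have h5 : Nat.primesLE k ⊆ Icc 1 k := by
        intro p hp
        rw [Nat.mem_primesLE] at hp
        rw [mem_Icc]
        exact ⟨hp.2.pos, hp.1⟩
      simpa using card_le_card h5
    have h1 : x / 4 ^ k ≤ x / modulus k := Nat.div_le_div_left hM hMpos
    have hkey : x / modulus k ≤ k + Nat.primeCounting k + repFree S x := hkey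
    set N := repFree S x with hN
    have h2 : x / 4 ^ k ≤ 2 * k + N := by omega
    have h3 : ((x / 4 ^ k : ℕ) : ℝ) ≤ 2 * k + N := by exact_mod_cast h2
    have h4 : (x : ℝ) / 4 ^ k - 1 ≤ ((x / 4 ^ k : ℕ) : ℝ) := by
      have h5 := Nat.div_add_mod x (4 ^ k)
      have h6 := Nat.mod_lt x (show 0 < 4 ^ k by positivity)
      have h7 : (x : ℝ) ≤ 4 ^ k * ((x / 4 ^ k : ℕ) : ℝ) + 4 ^ k := by
        have : x ≤ 4 ^ k * (x / 4 ^ k) + 4 ^ k := by omega
        exact_mod_cast this
      have hp : (0 : ℝ) < 4 ^ k := by positivity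
      rw [sub_le_iff_le_add, div_le_iff₀ hp]
      linarith
    have hxe : (x : ℝ) = Real.exp L1 := by
      rw [hL1, Real.exp_log (by exact_mod_cast hx1)]
    have h4k : (4 : ℝ) ^ k ≤ Real.exp (L1 * (7 / 20)) := by
      have h5 : (4 : ℝ) ^ k = Real.exp (k * Real.log 4) := by
        rw [mul_comm, Real.exp_mul, Real.exp_log (by norm_num), Real.rpow_natCast]
      rw [h5, Real.exp_le_exp]
      have h6 : Real.log 4 ≤ 7 / 5 := by
        have : Real.log 4 = 2 * Real.log 2 := by
          rw [show (4 : ℝ) = 2 ^ 2 by norm_num, Real.log_pow]; norm_num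
        have := Real.log_two_lt_d9
        linarith
      nlinarith
    have h5 : Real.exp (L1 * (13 / 20)) ≤ (x : ℝ) / 4 ^ k := by
      rw [le_div_iff₀ (by positivity), hxe]
      calc Real.exp (L1 * (13 / 20)) * 4 ^ k ≤
          Real.exp (L1 * (13 / 20)) * Real.exp (L1 * (7 / 20)) :=
            mul_le_mul_of_nonneg_left h4k (Real.exp_pos _).le
        _ = Real.exp L1 := by rw [← Real.exp_add]; congr 1; ring
    have hsqrt : √(x : ℝ) = Real.exp (L1 / 2) := by
      rw [Real.exp_half, ← hxe]
    rw [hsqrt]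
    have h6 : Real.exp (L1 * (13 / 20)) = Real.exp (L1 / 2) * Real.exp (L1 * (3 / 20)) := by
      rw [← Real.exp_add]; congr 1; ring
    have h7 := Real.add_one_le_exp (L1 * (3 / 20))
    have h8 := Real.add_one_le_exp (L1 / 2)
    have h9 : Real.exp (L1 / 2) * 7 ≤ Real.exp (L1 * (13 / 20)) := by
      rw [h6]
      exact mul_le_mul_of_nonneg_left (by linarith) (Real.exp_pos _).le
    linarith
  · -- range of `Y`
    refine hY.trans ?_
    have h1 : L2 ^ B ≤ (2 * l) ^ B := pow_le_pow_left₀ (by linarith) (by linarith) B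
    have h2 : (8 : ℝ) * 2 ^ B ≤ l := by linarith
    calc L1 * L2 ^ B ≤ (8 * k) * (2 * l) ^ B := by
          apply mul_le_mul (by linarith) h1 (by positivity) (by linarith)
      _ = k * (8 * 2 ^ B) * l ^ B := by rw [mul_pow]; ring
      _ ≤ k * l * l ^ B := by
          apply mul_le_mul_of_nonneg_right _ (by positivity)
          exact mul_le_mul_of_nonneg_left h2 hk0.le
      _ = k * l ^ (B + 1) := by rw [pow_succ]; ring
  · -- condition
    set s := ((S.filter (fun q => q ≤ Y)).card : ℝ) with hs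
    set t := ((S.filter (fun q => ¬ q ≤ Y)).card : ℝ) with ht
    have hs0 : 0 ≤ s := Nat.cast_nonneg _
    have ht0 : 0 ≤ t := Nat.cast_nonneg _
    have hL2p : 0 < L2 := by linarith
    have hL3p : 0 < L3 := by linarith
    have hL4p : 0 < L4 := by linarith
    have h1 : l2 ^ 2 / (l * l3) ≤ 4 * wt x := by
      have h2 : 4 * wt x = L3 ^ 2 / (L2 / 2 * (L4 / 2)) := by
        unfold wt
        rw [← hL1, ← hL2, ← hL3, ← hL4]
        field_simp
        norm_num
      rw [h2]
      apply div_le_div₀ (by positivity)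
      · exact pow_le_pow_left₀ p2.le hl2u 2
      · positivity
      · exact mul_le_mul hl1 hl3l (by positivity) p1.le
    have h3 : l2 ^ 2 / (l * l3) * s + t ≤ 4 * (wt x * s + t) := by
      have h4 := mul_le_mul_of_nonneg_right h1 hs0
      linarith
    refine h3.trans ?_
    have h5 : 4 * (wt x * s + t) ≤ 4 * (1 / (32 * 23056 * (B + 6)) * L1) := by linarith
    refine h5.trans ?_
    have hB : (0 : ℝ) < 23056 * ((B : ℝ) + 6) := by positivity
    push_cast
    have h6 : (4 : ℝ) * (1 / (32 * 23056 * (B + 6)) * L1) = (L1 / 8) / (23056 * (B + 6)) := by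
      field_simp
      norm_num
    have h7 : (23056 : ℝ) * (B + 1 + 5) = 23056 * (B + 6) := by ring
    rw [h6, h7]
    exact div_le_div_of_nonneg_right hkl hB.le

end Pool.Agent.Helper9.GW
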