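import Mathlib

/-!
# Covering a finite set of odd primes by residue classes (after helper37's LeastWitness)
-/

set_option autoImplicit false

namespace Pool.Agent.Helper9.GW

open Finset Nat

/-- the odd primes up to `y` -/
def oddPrimes (y : ℕ) : Finset ℕ := (Finset.Icc 3 y).filter Nat.Prime

/-- the product of the odd primes up to `y` -/
def modulus (y : ℕ) : ℕ := ∏ ℓ ∈ oddPrimes y, ℓ

/-- `(π(y) - 2 π(z)) ∏ (ℓ - 1) / (ℓ - 2)` over the odd primes `ℓ ≤ z` outside `L` -/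
noncomputable def bound (L : Finset ℕ) (z y : ℕ) : ℝ :=
  ((Nat.primeCounting y : ℝ) - 2 * Nat.primeCounting z) *
    ∏ ℓ ∈ oddPrimes z \ L, ((ℓ : ℝ) - 1) / ((ℓ : ℝ) - 2)

theorem mem_oddPrimes {y ℓ : ℕ} : ℓ ∈ oddPrimes y ↔ ℓ.Prime ∧ ℓ ≠ 2 ∧ ℓ ≤ y := by
  unfold oddPrimes
  rw [Finset.mem_filter, Finset.mem_Icc]
  constructor
  · rintro ⟨⟨h1, h2⟩, h3⟩
    exact ⟨h3, by omega, h2⟩
  · rintro ⟨h1, h2, h3⟩
    have := h1.two_le
    exact ⟨⟨by omega, h3⟩, h1⟩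

/-- The residue class mod `ℓ` which is hit most often, among the nonzero ones. -/
theorem exists_class (ℓ : ℕ) (hℓ : 3 ≤ ℓ) (B : Finset ℕ) (hB : ∀ q ∈ B, ¬ ℓ ∣ q) :
    ∃ c : ℕ, (((B.filter (fun q => ¬ q ≡ c [MOD ℓ])).card : ℕ) : ℝ) ≤
      (B.card : ℝ) * (((ℓ : ℝ) - 2) / ((ℓ : ℝ) - 1)) := by
  have hmaps : ∀ q ∈ B, q % ℓ ∈ Finset.Ioo 0 ℓ := by
    intro q hq
    rw [Finset.mem_Ioo]
    refine ⟨Nat.pos_of_ne_zero fun h => hB q hq (Nat.dvd_of_mod_eq_zero h), Nat.mod_lt _ (by omega)⟩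
  have hcard : (Finset.Ioo 0 ℓ).card = ℓ - 1 := by rw [Nat.card_Ioo]; omega
  have hne : (Finset.Ioo 0 ℓ).Nonempty := ⟨1, by rw [Finset.mem_Ioo]; omega⟩
  have hsum := Finset.card_eq_sum_card_fiberwise (s := B) (t := Finset.Ioo 0 ℓ)
    (f := fun q => q % ℓ) hmaps
  obtain ⟨c, hc, hmax⟩ := Finset.exists_max_image (Finset.Ioo 0 ℓ)
    (fun c => (B.filter (fun q => q % ℓ = c)).card) hne
  have hle : B.card ≤ (ℓ - 1) * (B.filter (fun q => q % ℓ = c)).card := by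
    rw [hsum]
    refine (Finset.sum_le_sum fun d hd => hmax d hd).trans ?_
    rw [Finset.sum_const, hcard, smul_eq_mul]
  refine ⟨c, ?_⟩
  have hc' := Finset.mem_Ioo.1 hc
  have hcl : (B.filter (fun q => ¬ q ≡ c [MOD ℓ])) = B.filter (fun q => ¬ q % ℓ = c) := by
    refine Finset.filter_congr fun q _ => ?_
    unfold Nat.ModEq
    rw [Nat.mod_eq_of_lt hc'.2]
  rw [hcl]
  have hsplit := Finset.card_filter_add_card_filter_not (s := B) (fun q => q % ℓ = c)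
  have h1 : (B.card : ℝ) ≤ ((ℓ : ℝ) - 1) * ((B.filter (fun q => q % ℓ = c)).card : ℝ) := by
    have : ((ℓ - 1 : ℕ) : ℝ) = (ℓ : ℝ) - 1 := by
      rw [Nat.cast_sub (by omega)]; norm_num
    rw [← this]
    exact_mod_cast hle
  have h2 : ((B.filter (fun q => q % ℓ = c)).card : ℝ) +
      ((B.filter (fun q => ¬ q % ℓ = c)).card : ℝ) = B.card := by exact_mod_cast hsplit
  have hℓ' : (3 : ℝ) ≤ ℓ := by exact_mod_cast hℓ
  rw [mul_div_assoc', le_div_iff₀ (by linarith)]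
  nlinarith

/-- Greedy choice of residue classes. -/
theorem greedy (S : Finset ℕ) (hS : ∀ ℓ ∈ S, 3 ≤ ℓ) (B : Finset ℕ)
    (hB : ∀ q ∈ B, ∀ ℓ ∈ S, ¬ ℓ ∣ q) :
    ∃ c : ℕ → ℕ, (((B.filter (fun q => ∀ ℓ ∈ S, ¬ q ≡ c ℓ [MOD ℓ])).card : ℕ) : ℝ) ≤
      (B.card : ℝ) * ∏ ℓ ∈ S, ((ℓ : ℝ) - 2) / ((ℓ : ℝ) - 1) := by
  classical
  induction S using Finset.induction_on with
  | empty =>
    refine ⟨fun _ => 0, ?_⟩
    simp
  | insert ℓ S hℓ ih =>
    obtain ⟨c, hc⟩ := ih (fun m hm => hS m (Finset.mem_insert_of_mem hm))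
      (fun q hq m hm => hB q hq m (Finset.mem_insert_of_mem hm))
    obtain ⟨d, hd⟩ := exists_class ℓ (hS ℓ (Finset.mem_insert_self _ _))
      (B.filter (fun q => ∀ m ∈ S, ¬ q ≡ c m [MOD m]))
      (fun q hq => hB q (Finset.mem_filter.1 hq).1 ℓ (Finset.mem_insert_self _ _))
    refine ⟨Function.update c ℓ d, ?_⟩
    have heq : B.filter (fun q => ∀ m ∈ insert ℓ S, ¬ q ≡ Function.update c ℓ d m [MOD m]) =
        (B.filter (fun q => ∀ m ∈ S, ¬ q ≡ c m [MOD m])).filter (fun q => ¬ q ≡ d [MOD ℓ]) := by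
      ext q
      simp only [Finset.mem_filter, Finset.mem_insert, forall_eq_or_imp, Function.update_self]
      constructor
      · rintro ⟨h1, h2, h3⟩
        refine ⟨⟨h1, fun m hm => ?_⟩, h2⟩
        have := h3 m hm
        rwa [Function.update_of_ne (by rintro rfl; exact hℓ hm)] at this
      · rintro ⟨⟨h1, h3⟩, h2⟩
        refine ⟨h1, h2, fun m hm => ?_⟩
        rw [Function.update_of_ne (by rintro rfl; exact hℓ hm)]
        exact h3 m hm
    rw [heq, Finset.prod_insert hℓ]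
    have h3 : (3 : ℝ) ≤ ℓ := by exact_mod_cast hS ℓ (Finset.mem_insert_self _ _)
    have h0 : (0 : ℝ) ≤ ((ℓ : ℝ) - 2) / ((ℓ : ℝ) - 1) :=
      div_nonneg (by linarith) (by linarith)
    refine hd.trans ((mul_le_mul_of_nonneg_right hc h0).trans (le_of_eq ?_))
    ring

/-- Main combinatorial step: a residue class of `n` for which every `q` in a given small set `B`
of primes has `2 n - q` divisible by an odd prime `≤ y`. -/
theorem cover (L : Finset ℕ) (a : ℕ → ℕ) (z y : ℕ) (hz : 2 ≤ z) (hzy : z ≤ y)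
    (hL : L ⊆ oddPrimes z) (B : Finset ℕ) (hB : ∀ q ∈ B, q.Prime ∧ q ≠ 2)
    (hcard : (((B.filter (fun q => ∀ ℓ ∈ L, ¬ q ≡ a ℓ [MOD ℓ])).card : ℕ) : ℝ) ≤ bound L z y) :
    ∃ (n₀ : ℕ) (g : ℕ → ℕ), ∀ n : ℕ, n ≡ n₀ [MOD modulus y] →
      (∀ q ∈ B, ∃ ℓ ∈ oddPrimes y, 2 * n ≡ q [MOD ℓ] ∧ (z < ℓ → g ℓ = q)) ∧
      (∀ p ∈ oddPrimes z, ∃ m ∈ oddPrimes y, 2 * n ≡ p [MOD m] ∧ z < m) := by
  classical
  set B0 := B.filter (fun q => ∀ ℓ ∈ L, ¬ q ≡ a ℓ [MOD ℓ]) with hB0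
  set B1 := B0.filter (fun q => z < q) with hB1
  set S := oddPrimes z \ L with hS
  obtain ⟨c, hc⟩ := greedy S (fun ℓ hℓ => by
      have := mem_oddPrimes.1 (Finset.mem_sdiff.1 hℓ).1
      have h2 := this.1.two_le
      omega) B1 (by
      intro q hq ℓ hℓ hdvd
      have h1 := mem_oddPrimes.1 (Finset.mem_sdiff.1 hℓ).1
      have h2 := Finset.mem_filter.1 hq
      have h3 := hB q (Finset.mem_filter.1 h2.1).1
      have h4 := (Nat.prime_dvd_prime_iff_eq h1.1 h3.1).1 hdvd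
      omega)
  set B1' := B1.filter (fun q => ∀ ℓ ∈ S, ¬ q ≡ c ℓ [MOD ℓ]) with hB1'
  set R := B1' ∪ oddPrimes z with hR
  -- the primes in (z, y]
  set P := (Nat.primesLE y).filter (fun ℓ => z < ℓ) with hP
  have hPcard : (Nat.primeCounting y : ℝ) - Nat.primeCounting z ≤ P.card := by
    have h1 : Nat.primesLE y ⊆ P ∪ Nat.primesLE z := by
      intro ℓ hℓ
      rw [Finset.mem_union, hP, Finset.mem_filter]
      by_cases h : z < ℓ
      · exact Or.inl ⟨hℓ, h⟩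
      · refine Or.inr ?_
        rw [Nat.mem_primesLE] at hℓ ⊢
        exact ⟨by omega, hℓ.2⟩
    have h2 := (Finset.card_le_card h1).trans (Finset.card_union_le _ _)
    rw [Nat.primesLE_card_eq_primeCounting, Nat.primesLE_card_eq_primeCounting] at h2
    have h3 : (Nat.primeCounting y : ℝ) ≤ P.card + Nat.primeCounting z := by exact_mod_cast h2
    linarith
  have hB2card : ((oddPrimes z).card : ℝ) ≤ Nat.primeCounting z := by
    have h1 : oddPrimes z ⊆ Nat.primesLE z := by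
      intro q hq
      have h2 := mem_oddPrimes.1 hq
      rw [Nat.mem_primesLE]
      exact ⟨h2.2.2, h2.1⟩
    have h2 := Finset.card_le_card h1
    rw [Nat.primesLE_card_eq_primeCounting] at h2
    exact_mod_cast h2
  have hfac : ∀ ℓ ∈ S, (3 : ℝ) ≤ ℓ := by
    intro ℓ hℓ
    have := mem_oddPrimes.1 (Finset.mem_sdiff.1 hℓ).1
    have h2 := this.1.two_le
    have : 3 ≤ ℓ := by omega
    exact_mod_cast this
  have hprod : (∏ ℓ ∈ S, ((ℓ : ℝ) - 1) / ((ℓ : ℝ) - 2)) *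
      ∏ ℓ ∈ S, ((ℓ : ℝ) - 2) / ((ℓ : ℝ) - 1) = 1 := by
    rw [← Finset.prod_mul_distrib]
    refine Finset.prod_eq_one fun ℓ hℓ => ?_
    have := hfac ℓ hℓ
    have h1 : (ℓ : ℝ) - 2 ≠ 0 := by linarith
    have h2 : (ℓ : ℝ) - 1 ≠ 0 := by linarith
    field_simp
  have hprod0 : 0 ≤ ∏ ℓ ∈ S, ((ℓ : ℝ) - 2) / ((ℓ : ℝ) - 1) :=
    Finset.prod_nonneg fun ℓ hℓ => div_nonneg (by linarith [hfac ℓ hℓ]) (by linarith [hfac ℓ hℓ])
  have hB1card : (B1'.card : ℝ) ≤ (Nat.primeCounting y : ℝ) - 2 * Nat.primeCounting z := by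
    have h1 : (B1.card : ℝ) ≤ bound L z y := by
      refine le_trans ?_ hcard
      exact_mod_cast Finset.card_le_card (Finset.filter_subset _ _)
    refine hc.trans ((mul_le_mul_of_nonneg_right h1 hprod0).trans (le_of_eq ?_))
    unfold bound
    rw [mul_assoc, hprod, mul_one]
  have hRP : R.card ≤ P.card := by
    have h1 : (R.card : ℝ) ≤ B1'.card + (oddPrimes z).card := by
      exact_mod_cast Finset.card_union_le _ _
    have h2 : (R.card : ℝ) ≤ P.card := by linarith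
    exact_mod_cast h2
  obtain ⟨P', hP'sub, hP'card⟩ := Finset.exists_subset_card_eq hRP
  let e : P' ≃ R := Finset.equivOfCardEq hP'card
  let g : ℕ → ℕ := fun ℓ => if h : ℓ ∈ P' then ((e ⟨ℓ, h⟩ : R) : ℕ) else 0
  -- residues
  let b : ℕ → ℕ := fun ℓ => if ℓ ∈ P' then g ℓ else if ℓ ∈ L then a ℓ else c ℓ
  have hcop : Set.Pairwise (↑(oddPrimes y) : Set ℕ) (Function.onFun Nat.Coprime (id : ℕ → ℕ)) := by
    intro i hi j hj hij
    exact (Nat.coprime_primes (mem_oddPrimes.1 hi).1 (mem_oddPrimes.1 hj).1).2 hij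
  obtain ⟨n₀, hn₀⟩ : ∃ n₀ : ℕ, ∀ ℓ ∈ oddPrimes y, 2 * n₀ ≡ b ℓ [MOD ℓ] := by
    obtain ⟨k, hk⟩ := Nat.chineseRemainderOfFinset (fun ℓ => b ℓ * ((ℓ + 1) / 2)) (id : ℕ → ℕ)
      (oddPrimes y) (fun i hi => (mem_oddPrimes.1 hi).1.ne_zero) hcop
    refine ⟨k, fun ℓ hℓ => ?_⟩
    have h1 := hk ℓ hℓ
    have hodd : Odd ℓ := (mem_oddPrimes.1 hℓ).1.odd_of_ne_two (mem_oddPrimes.1 hℓ).2.1
    obtain ⟨t, ht⟩ := hodd
    have h2 : (ℓ + 1) / 2 = t + 1 := by omega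
    have h3 : 2 * k ≡ 2 * (b ℓ * ((ℓ + 1) / 2)) [MOD ℓ] := Nat.ModEq.mul_left 2 h1
    refine h3.trans ?_
    rw [h2]
    have h4 : 2 * (b ℓ * (t + 1)) = b ℓ + ℓ * b ℓ := by
      rw [ht]; ring
    rw [h4]
    have h5 : ℓ * b ℓ ≡ 0 [MOD ℓ] := (Nat.modEq_zero_iff_dvd).2 (Dvd.intro _ rfl)
    have h6 := Nat.ModEq.add_left (b ℓ) h5
    rwa [add_zero] at h6
  refine ⟨n₀, g, fun n hn => ?_⟩
  have hn' : ∀ ℓ ∈ oddPrimes y, 2 * n ≡ b ℓ [MOD ℓ] := by
    intro ℓ hℓ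
    have hd : ℓ ∣ modulus y := Finset.dvd_prod_of_mem _ hℓ
    exact (Nat.ModEq.mul_left 2 (hn.of_dvd hd)).trans (hn₀ ℓ hℓ)
  have hP'big : ∀ ℓ ∈ P', z < ℓ := fun ℓ hℓ => (Finset.mem_filter.1 (hP'sub hℓ)).2
  -- elements of `R` are hit by a prime in `(z, y]`
  have hRhit : ∀ q ∈ R, ∃ ℓ ∈ oddPrimes y, 2 * n ≡ q [MOD ℓ] ∧ z < ℓ ∧ g ℓ = q := by
    intro q hqR
    have hmem := (e.symm ⟨q, hqR⟩).2
    have h1 := Finset.mem_filter.1 (hP'sub hmem)
    rw [Nat.mem_primesLE] at h1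
    have hodd : ((e.symm ⟨q, hqR⟩ : P') : ℕ) ∈ oddPrimes y :=
      mem_oddPrimes.2 ⟨h1.1.2, by omega, h1.1.1⟩
    have hg : g ((e.symm ⟨q, hqR⟩ : P') : ℕ) = q := by
      simp only [g]
      rw [dif_pos hmem]
      have : (⟨((e.symm ⟨q, hqR⟩ : P') : ℕ), hmem⟩ : P') = e.symm ⟨q, hqR⟩ := rfl
      rw [this, Equiv.apply_symm_apply]
    refine ⟨_, hodd, (hn' _ hodd).trans ?_, h1.2, hg⟩
    simp only [b]
    rw [if_pos hmem, hg]
  refine ⟨fun q hq => ?_, fun p hp => ?_⟩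
  · by_cases h0 : ∀ ℓ ∈ L, ¬ q ≡ a ℓ [MOD ℓ]
    · have hqB0 : q ∈ B0 := Finset.mem_filter.2 ⟨hq, h0⟩
      by_cases hqR : q ∈ R
      · obtain ⟨ℓ, h1, h2, h3, h4⟩ := hRhit q hqR
        exact ⟨ℓ, h1, h2, fun _ => h4⟩
      · have hq1 : q ∈ B1 := by
          by_contra h
          refine hqR (Finset.mem_union_right _ ?_)
          have hqB := hB q hq
          refine mem_oddPrimes.2 ⟨hqB.1, hqB.2, ?_⟩
          by_contra h'
          exact h (Finset.mem_filter.2 ⟨hqB0, by omega⟩)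
        have hq1' : q ∉ B1' := fun h => hqR (Finset.mem_union_left _ h)
        rw [hB1', Finset.mem_filter] at hq1'
        push Not at hq1'
        obtain ⟨ℓ, hℓ, hqℓ⟩ := hq1' hq1
        have hℓ2 := Finset.mem_sdiff.1 hℓ
        have hℓ3 := mem_oddPrimes.1 hℓ2.1
        have hodd : ℓ ∈ oddPrimes y := mem_oddPrimes.2 ⟨hℓ3.1, hℓ3.2.1, by omega⟩
        refine ⟨ℓ, hodd, (hn' _ hodd).trans ?_, fun h => by omega⟩
        have hb : b ℓ = c ℓ := by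
          simp only [b]
          rw [if_neg (fun h => by have := hP'big ℓ h; omega), if_neg hℓ2.2]
        rw [hb]
        exact hqℓ.symm
    · push Not at h0
      obtain ⟨ℓ, hℓ, hqℓ⟩ := h0
      have hℓ3 := mem_oddPrimes.1 (hL hℓ)
      have hodd : ℓ ∈ oddPrimes y := mem_oddPrimes.2 ⟨hℓ3.1, hℓ3.2.1, by omega⟩
      refine ⟨ℓ, hodd, (hn' _ hodd).trans ?_, fun h => by omega⟩
      have hb : b ℓ = a ℓ := by
        simp only [b]
        rw [if_neg (fun h => by have := hP'big ℓ h; omega), if_pos hℓ]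
      rw [hb]
      exact hqℓ.symm
  · obtain ⟨ℓ, h1, h2, h3, h4⟩ := hRhit p (Finset.mem_union_right _ hp)
    exact ⟨ℓ, h1, h2, h3⟩

/-- If `q + r = 2 n` with `q ∈ B`, `r` prime and `n > y` in the residue class of `cover`, then
`r ≤ y` and `q = g r`. -/
theorem rep_of_cover {z y n : ℕ} {B : Finset ℕ} {g : ℕ → ℕ} (hB : ∀ q ∈ B, q.Prime ∧ q ≠ 2)
    (h1 : ∀ q ∈ B, ∃ ℓ ∈ oddPrimes y, 2 * n ≡ q [MOD ℓ] ∧ (z < ℓ → g ℓ = q))
    (h2 : ∀ p ∈ oddPrimes z, ∃ m ∈ oddPrimes y, 2 * n ≡ p [MOD m] ∧ z < m)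
    (hn : y < n) {q r : ℕ} (hq : q ∈ B) (hr : r.Prime) (hqr : q + r = 2 * n) :
    r ∈ oddPrimes y ∧ q = g r := by
  obtain ⟨ℓ, hℓ, hmod, hg⟩ := h1 q hq
  have hℓ' := mem_oddPrimes.1 hℓ
  have h3 : q + r ≡ q + 0 [MOD ℓ] := by rw [hqr, add_zero]; exact hmod
  have h4 : r ≡ 0 [MOD ℓ] := Nat.ModEq.add_left_cancel' q h3
  have h5 : ℓ ∣ r := (Nat.modEq_zero_iff_dvd).1 h4
  have h6 : ℓ = r := (Nat.prime_dvd_prime_iff_eq hℓ'.1 hr).1 h5
  subst h6
  refine ⟨hℓ, ?_⟩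
  by_cases hz : z < ℓ
  · exact (hg hz).symm
  · exfalso
    obtain ⟨m, hm, hmod', _⟩ := h2 ℓ (mem_oddPrimes.2 ⟨hℓ'.1, hℓ'.2.1, by omega⟩)
    have hm' := mem_oddPrimes.1 hm
    have h7 : ℓ + q ≡ ℓ + 0 [MOD m] := by rw [add_comm ℓ q, hqr, add_zero]; exact hmod'
    have h8 : q ≡ 0 [MOD m] := Nat.ModEq.add_left_cancel' ℓ h7
    have h9 : m ∣ q := (Nat.modEq_zero_iff_dvd).1 h8
    have h10 : m = q := (Nat.prime_dvd_prime_iff_eq hm'.1 (hB q hq).1).1 h9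
    omega


open Classical in
/-- the members of the residue class: all but few have no representation `q + r`, `q ∈ B` -/
theorem cover_count (z y : ℕ) (hz : 2 ≤ z) (hzy : z ≤ y) (L : Finset ℕ) (hL : L ⊆ oddPrimes z)
    (a : ℕ → ℕ) (B : Finset ℕ) (hB' : ∀ q ∈ B, q.Prime ∧ q ≠ 2)
    (hcard : (((B.filter (fun q => ∀ ℓ ∈ L, ¬ q ≡ a ℓ [MOD ℓ])).card : ℕ) : ℝ) ≤ bound L z y)
    (X : ℕ) :
    X / modulus y ≤ y + Nat.primeCounting y +
      ((Finset.Ioc 0 X).filter (fun n => ∀ q ∈ B, ∀ r : ℕ, r.Prime → q + r ≠ 2 * n)).card := by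
  obtain ⟨n₀, g, hcov⟩ := cover L a z y hz hzy hL B hB' hcard
  have hg : ∀ n : ℕ, n ≡ n₀ [MOD modulus y] → y < n → ∀ q ∈ B, ∀ r : ℕ, r.Prime →
      q + r = 2 * n → r ∈ oddPrimes y ∧ q = g r := by
    intro n hn hyn q hq r hr hqr
    obtain ⟨h1, h2⟩ := hcov n hn
    exact rep_of_cover hB' h1 h2 hyn hq hr hqr
  have hMpos : 0 < modulus y := Finset.prod_pos fun ℓ hℓ => (mem_oddPrimes.1 hℓ).1.pos
  set A := (Finset.Ioc 0 X).filter (fun n => n ≡ n₀ [MOD modulus y]) with hA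
  set F := (Finset.Ioc 0 X).filter (fun n => ∀ q ∈ B, ∀ r : ℕ, r.Prime → q + r ≠ 2 * n) with hF
  have hAcard : X / modulus y ≤ A.card := by
    have := Nat.Ioc_filter_modEq_card 0 X hMpos n₀
    have h2 : ((A.card : ℕ) : ℤ) = _ := this
    have h3 : ((X / modulus y : ℕ) : ℤ) ≤ (A.card : ℤ) := by
      rw [h2]
      refine le_max_of_le_left ?_
      have e1 : (⌊((X : ℚ) - n₀) / modulus y⌋ : ℤ) = ((X : ℤ) - n₀) / modulus y := by
        have := Rat.floor_intCast_div_natCast ((X : ℤ) - n₀) (modulus y)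
        push_cast at this
        exact this
      have e2 : (⌊((0 : ℕ) - (n₀ : ℚ)) / modulus y⌋ : ℤ) = (0 - (n₀ : ℤ)) / modulus y := by
        have := Rat.floor_intCast_div_natCast ((0 : ℤ) - n₀) (modulus y)
        push_cast at this
        simpa using this
      rw [e1, e2]
      have hWz : (0 : ℤ) < modulus y := by exact_mod_cast hMpos
      have key : (X : ℤ) / modulus y + (0 - (n₀ : ℤ)) / modulus y ≤
          ((X : ℤ) - n₀) / modulus y := by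
        rw [Int.le_ediv_iff_mul_le hWz]
        have a1 := Int.ediv_mul_le (X : ℤ) hWz.ne'
        have a2 := Int.ediv_mul_le (0 - (n₀ : ℤ)) hWz.ne'
        nlinarith
      push_cast
      linarith
    exact_mod_cast h3
  have hsub : A ⊆ (Finset.Icc 1 y ∪ (oddPrimes y).image (fun r => (g r + r) / 2)) ∪ F := by
    intro n hn
    rw [hA, Finset.mem_filter, Finset.mem_Ioc] at hn
    obtain ⟨⟨hn1, hn2⟩, hn3⟩ := hn
    by_cases hsmall : n ≤ y
    · refine Finset.mem_union_left _ (Finset.mem_union_left _ ?_)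
      rw [Finset.mem_Icc]; omega
    by_cases hgood : ∀ q ∈ B, ∀ r : ℕ, r.Prime → q + r ≠ 2 * n
    · refine Finset.mem_union_right _ ?_
      rw [hF, Finset.mem_filter, Finset.mem_Ioc]
      exact ⟨⟨by omega, hn2⟩, hgood⟩
    · push Not at hgood
      obtain ⟨q, hqT, r, hr, hqr⟩ := hgood
      obtain ⟨h1, h2⟩ := hg n hn3 (by omega) q hqT r hr hqr
      refine Finset.mem_union_left _ (Finset.mem_union_right _ ?_)
      rw [Finset.mem_image]
      exact ⟨r, h1, by omega⟩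
  have hcard := Finset.card_le_card hsub
  have hodd : (oddPrimes y).card ≤ Nat.primeCounting y := by
    have h1 : oddPrimes y ⊆ Nat.primesLE y := by
      intro q hq
      have h2 := mem_oddPrimes.1 hq
      rw [Nat.mem_primesLE]
      exact ⟨h2.2.2, h2.1⟩
    have h2 := Finset.card_le_card h1
    rwa [Nat.primesLE_card_eq_primeCounting] at h2
  refine hAcard.trans (hcard.trans ((Finset.card_union_le _ _).trans ?_))
  refine add_le_add_left ((Finset.card_union_le _ _).trans ?_) _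
  refine _root_.add_le_add (by simp) (Finset.card_image_le.trans hodd)

end Pool.Agent.Helper9.GW
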