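import Pool.Agent.Helper9.GW.Param

/-!
# Estimates
-/

set_option autoImplicit false

namespace Pool.Agent.Helper9.GW

open Finset Nat

/-- end of the medium primes -/
noncomputable def zz (l : ℝ) : ℕ := ⌊Real.exp l / l ^ 2⌋₊

/-- length of the interval of shifts -/
noncomputable def HH (l : ℝ) (B : ℕ) : ℕ := ⌊Real.exp l * l ^ B⌋₊

variable {k : ℕ} {l l2 l3 : ℝ}

theorem Par.zz_facts (h : Par k l l2 l3) :
    Real.exp (l / 2) ≤ (zz l : ℝ) ∧ (zz l : ℝ) ≤ Real.exp l / l ^ 2 ∧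
      Real.exp l / (2 * l ^ 2) ≤ (zz l : ℝ) := by
  obtain ⟨e1, e2, e3, g1, g2, g3⟩ := h.facts
  have p1 := h.p1
  have hl : 1 ≤ l := by linarith
  have hsplit : Real.exp l = Real.exp (l / 2) * Real.exp (l / 2) := by
    rw [← Real.exp_add]; congr 1; ring
  have hE : 1 ≤ Real.exp (l / 2) := Real.one_le_exp (by linarith)
  have h1 : Real.exp (l / 2) * l ^ 2 ≤ Real.exp l / l ^ 2 := by
    rw [le_div_iff₀ (by positivity), hsplit]
    have := h.grow
    nlinarith
  have hfl := Nat.lt_floor_add_one (Real.exp l / l ^ 2)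
  have hfl' : Real.exp l / l ^ 2 - 1 ≤ (zz l : ℝ) := by unfold zz; linarith
  have hl2 : (2 : ℝ) ≤ l ^ 2 := by nlinarith
  refine ⟨?_, ?_, ?_⟩
  · nlinarith
  · unfold zz
    exact Nat.floor_le (by positivity)
  · have h2 : Real.exp l / (2 * l ^ 2) = Real.exp l / l ^ 2 / 2 := by
      rw [div_div, mul_comm]
    rw [h2]
    nlinarith

theorem Par.HH_facts (h : Par k l l2 l3) (B : ℕ) :
    k ≤ HH l B ∧ (HH l B : ℝ) ≤ Real.exp l * l ^ B ∧ Real.exp l ≤ (HH l B : ℝ) := by
  obtain ⟨e1, e2, e3, g1, g2, g3⟩ := h.facts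
  have p1 := h.p1
  have hl : 1 ≤ l := by linarith
  have h1 : (1 : ℝ) ≤ l ^ B := one_le_pow₀ hl
  have h2 : k ≤ HH l B := by
    unfold HH
    rw [← e1]
    refine Nat.le_floor ?_
    nlinarith [Nat.cast_nonneg (α := ℝ) k]
  refine ⟨h2, ?_, ?_⟩
  · unfold HH
    exact Nat.floor_le (by positivity)
  · rw [← e1]
    exact_mod_cast h2

theorem log48 : Real.log 48 ≤ 4 := by
  rw [Real.log_le_iff_le_exp (by norm_num)]
  have h1 : (2.7 : ℝ) ≤ Real.exp 1 := by
    have := Real.exp_one_gt_d9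
    linarith
  have h2 : Real.exp 4 = Real.exp 1 ^ 4 := by
    rw [← Real.exp_nat_mul]
    norm_num
  rw [h2]
  calc (48 : ℝ) ≤ 2.7 ^ 4 := by norm_num
    _ ≤ _ := pow_le_pow_left₀ (by norm_num) h1 4

theorem Par.smooth_le (h : Par k l l2 l3) (B : ℕ) :
    (((Icc 1 (HH l B)).filter
      (fun n : ℕ => ∀ q ∈ n.primeFactors, q ≤ 2 ^ bb l l2 l3)).card : ℝ) ≤ HH l B / l := by
  obtain ⟨e1, e2, e3, g1, g2, g3⟩ := h.facts
  obtain ⟨b1, b2, b3⟩ := h.bb_facts
  obtain ⟨H1, H2, H3⟩ := h.HH_facts B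
  have p1 := h.p1
  have p2 := h.p2
  have h3 := h.h3
  have hlog2 : 0 < Real.log 2 := Real.log_pos (by norm_num)
  have hlog2' : Real.log 2 < 1 := by
    have := Real.log_two_lt_d9
    linarith
  set b := bb l l2 l3 with hb
  set H := HH l B with hH
  set A : ℝ := (l3 - Real.log 48) / 2 with hA
  have h48 := log48
  have hA0 : l3 / 4 ≤ A := by rw [hA]; linarith
  have hlogz : Real.log ((2 ^ b : ℕ) : ℝ) = b * Real.log 2 := by
    push_cast
    rw [Real.log_pow]
  have hbl : 2 * l3 ≤ l * l3 / (16 * l2) := by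
    rw [le_div_iff₀ (by positivity)]
    nlinarith
  have hb2 : (2 : ℝ) ≤ b := by nlinarith
  have hb2' : 2 ≤ b := by exact_mod_cast hb2
  have h4z : 4 ≤ 2 ^ b := by
    calc 4 = 2 ^ 2 := rfl
      _ ≤ 2 ^ b := Nat.pow_le_pow_right (by norm_num) hb2'
  have hH1 : 1 ≤ H := by
    have := h.kpos
    omega
  have hbound := Helper52.smooth_bound (A := A) (by linarith) (z := 2 ^ b) h4z
    (by rw [hlogz]; have : 4 * A ≤ 2 * l3 := by
          rw [hA]; have : 0 ≤ Real.log 48 := Real.log_nonneg (by norm_num); linarith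
        linarith) (x := H) hH1
  refine hbound.trans ?_
  rw [hlogz]
  have hH0 : (0 : ℝ) ≤ H := Nat.cast_nonneg H
  have hlogH : l ≤ Real.log H := by
    rw [Real.le_log_iff_exp_le (by exact_mod_cast hH1)]
    exact H3
  have hblog : 0 < (b : ℝ) * Real.log 2 := by positivity
  have hexp1 : Real.exp (12 * Real.exp (2 * A)) = Real.exp (l2 / 4) := by
    congr 1
    have : 2 * A = l3 - Real.log 48 := by rw [hA]; ring
    rw [this, Real.exp_sub, ← e3, Real.exp_log (by norm_num)]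
    ring
  have hexp2 : Real.exp (-(A * Real.log H / (b * Real.log 2))) ≤ Real.exp (-(2 * l2)) := by
    rw [Real.exp_le_exp, neg_le_neg_iff, le_div_iff₀ hblog]
    have h5 : 2 * l2 * (b * Real.log 2) ≤ l3 / 4 * l := by
      have h6 : 2 * l2 * (b * Real.log 2) ≤ 2 * l2 * (l * l3 / (8 * l2)) :=
        mul_le_mul_of_nonneg_left b2 (by positivity)
      have h7 : 2 * l2 * (l * l3 / (8 * l2)) = l3 / 4 * l := by
        field_simp
        norm_num
      linarith
    calc 2 * l2 * (b * Real.log 2) ≤ l3 / 4 * l := h5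
      _ ≤ A * Real.log H := by
        apply mul_le_mul hA0 hlogH (by positivity) (by linarith)
  rw [hexp1]
  have hfin : (1 + Real.exp (l2 / 4)) * Real.exp (-(2 * l2)) ≤ 1 / l := by
    have h8 : 1 / l = Real.exp (-l2) := by
      rw [Real.exp_neg, ← e2, one_div]
    rw [h8]
    have h9 : 1 + Real.exp (l2 / 4) ≤ Real.exp l2 := by
      have h10 : Real.exp l2 = Real.exp (l2 / 4) * Real.exp (3 * l2 / 4) := by
        rw [← Real.exp_add]; congr 1; ring
      have h11 : 2 ≤ Real.exp (3 * l2 / 4) := by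
        have := Real.add_one_le_exp (3 * l2 / 4)
        linarith
      have h12 : 1 ≤ Real.exp (l2 / 4) := Real.one_le_exp (by linarith)
      rw [h10]
      nlinarith
    calc (1 + Real.exp (l2 / 4)) * Real.exp (-(2 * l2)) ≤ Real.exp l2 * Real.exp (-(2 * l2)) :=
          mul_le_mul_of_nonneg_right h9 (Real.exp_pos _).le
      _ = Real.exp (-l2) := by rw [← Real.exp_add]; congr 1; ring
  calc (1 + Real.exp (l2 / 4)) * H * Real.exp (-(A * Real.log H / (b * Real.log 2)))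
      ≤ (1 + Real.exp (l2 / 4)) * H * Real.exp (-(2 * l2)) :=
        mul_le_mul_of_nonneg_left hexp2 (by positivity)
    _ = H * ((1 + Real.exp (l2 / 4)) * Real.exp (-(2 * l2))) := by ring
    _ ≤ H * (1 / l) := mul_le_mul_of_nonneg_left hfin hH0
    _ = H / l := by ring

theorem Par.rough_le (h : Par k l l2 l3) (B : ℕ) :
    ((∑ m ∈ Icc 1 (HH l B / zz l), Nat.primeCounting (HH l B / m) : ℕ) : ℝ) ≤
      4 * (B + 4) * HH l B * l2 / l := by
  obtain ⟨e1, e2, e3, g1, g2, g3⟩ := h.facts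
  obtain ⟨H1, H2, H3⟩ := h.HH_facts B
  obtain ⟨z1, z2, z3⟩ := h.zz_facts
  have p1 := h.p1
  have p2 := h.p2
  have hl : 1 ≤ l := by linarith
  set H := HH l B with hH
  set z := zz l with hz
  have hE : 1 ≤ Real.exp (l / 2) := Real.one_le_exp (by linarith)
  have hz0 : (0 : ℝ) < z := by linarith
  have hz0' : 0 < z := by exact_mod_cast hz0
  have hH0 : (0 : ℝ) < H := lt_of_lt_of_le (Real.exp_pos _) H3
  have hterm : ∀ m ∈ Icc 1 (H / z), (Nat.primeCounting (H / m) : ℝ) ≤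
      4 * H / l * (1 / (m : ℝ)) := by
    intro m hm
    rw [mem_Icc] at hm
    have hm0 : (0 : ℝ) < m := by exact_mod_cast hm.1
    have hmz : (z : ℝ) ≤ (H : ℝ) / m := by
      rw [le_div_iff₀ hm0]
      have := (Nat.le_div_iff_mul_le hz0').1 hm.2
      have h5 : z * m ≤ H := by rw [mul_comm]; exact this
      exact_mod_cast h5
    have h6 := h.cheb ((H : ℝ) / m) (z1.trans hmz)
    rw [Nat.floor_div_eq_div] at h6
    have ht : 0 < (H : ℝ) / m := by positivity
    have hlog : l / 2 ≤ Real.log ((H : ℝ) / m) := by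
      rw [Real.le_log_iff_exp_le ht]
      exact z1.trans hmz
    refine h6.trans ?_
    have hlpos : 0 < Real.log ((H : ℝ) / m) := by linarith
    rw [div_le_iff₀ hlpos]
    have h7 : 4 * (H : ℝ) / l * (1 / m) * (l / 2) = 2 * (H / m) := by
      field_simp
      norm_num
    calc 2 * ((H : ℝ) / m) = 4 * (H : ℝ) / l * (1 / m) * (l / 2) := h7.symm
      _ ≤ _ := mul_le_mul_of_nonneg_left hlog (by positivity)
  push_cast
  refine (sum_le_sum hterm).trans ?_
  rw [← mul_sum]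
  have hN : 1 ≤ H / z := by
    rw [Nat.le_div_iff_mul_le hz0', one_mul]
    have h5 : (z : ℝ) ≤ H := by
      refine z2.trans (le_trans ?_ H3)
      rw [div_le_iff₀ (by positivity)]
      nlinarith [Real.exp_pos l, one_le_pow₀ hl (n := 2)]
    exact_mod_cast h5
  have hharm : ∑ m ∈ Icc 1 (H / z), 1 / (m : ℝ) ≤ 1 + Real.log ((H / z : ℕ) : ℝ) := by
    have := harmonic_le_one_add_log (H / z)
    rw [harmonic_eq_sum_Icc] at this
    push_cast at this
    simpa [one_div] using this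
  have hlogN : Real.log ((H / z : ℕ) : ℝ) ≤ 1 + (B + 2) * l2 := by
    have h5 : ((H / z : ℕ) : ℝ) ≤ 2 * l ^ (B + 2) := by
      refine (Nat.cast_div_le).trans ?_
      rw [div_le_iff₀ hz0]
      calc (H : ℝ) ≤ Real.exp l * l ^ B := H2
        _ = 2 * l ^ (B + 2) * (Real.exp l / (2 * l ^ 2)) := by
          rw [pow_add]
          field_simp
        _ ≤ _ := mul_le_mul_of_nonneg_left z3 (by positivity)
    have hN0 : (0 : ℝ) < ((H / z : ℕ) : ℝ) := by exact_mod_cast hN
    refine (Real.log_le_log hN0 h5).trans ?_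
    rw [Real.log_mul (by norm_num) (by positivity), Real.log_pow, h.hl2]
    have := Real.log_two_lt_d9
    push_cast
    linarith
  calc 4 * (H : ℝ) / l * ∑ m ∈ Icc 1 (H / z), 1 / (m : ℝ)
      ≤ 4 * (H : ℝ) / l * ((B + 4) * l2) := by
        refine mul_le_mul_of_nonneg_left ?_ (by positivity)
        have : (1 : ℝ) + (1 + (B + 2) * l2) ≤ (B + 4) * l2 := by nlinarith
        linarith
    _ = 4 * (B + 4) * H * l2 / l := by ring

theorem Par.free_le (h : Par k l l2 l3) (B : ℕ) :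
    ((free (2 ^ bb l l2 l3) (zz l) (HH l B)).card : ℝ) ≤ 4 * (B + 5) * HH l B * l2 / l := by
  obtain ⟨e1, e2, e3, g1, g2, g3⟩ := h.facts
  obtain ⟨b1, b2, b3⟩ := h.bb_facts
  obtain ⟨z1, z2, z3⟩ := h.zz_facts
  have p1 := h.p1
  have hE : 1 ≤ Real.exp (l / 2) := Real.one_le_exp (by linarith)
  have hz0 : (0 : ℝ) < zz l := by linarith
  have hz0' : 1 ≤ zz l := by exact_mod_cast hz0
  have h2b : 2 ≤ 2 ^ bb l l2 l3 := by
    calc 2 = 2 ^ 1 := rfl
      _ ≤ _ := Nat.pow_le_pow_right (by norm_num) b1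
  have h1 := card_free_le (H := HH l B) h2b hz0'
  have h2 : ((free (2 ^ bb l l2 l3) (zz l) (HH l B)).card : ℝ) ≤
      (((Icc 1 (HH l B)).filter
      (fun n : ℕ => ∀ q ∈ n.primeFactors, q ≤ 2 ^ bb l l2 l3)).card : ℝ) +
      ((∑ m ∈ Icc 1 (HH l B / zz l), Nat.primeCounting (HH l B / m) : ℕ) : ℝ) := by
    exact_mod_cast h1
  have h3 := h.smooth_le B
  have h4 := h.rough_le B
  have h5 : (HH l B : ℝ) / l ≤ 4 * HH l B * l2 / l := by
    refine div_le_div_of_nonneg_right ?_ p1.le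
    have : (0 : ℝ) ≤ HH l B := Nat.cast_nonneg _
    nlinarith
  calc _ ≤ _ := h2
    _ ≤ HH l B / l + 4 * (B + 4) * HH l B * l2 / l := add_le_add h3 h4
    _ ≤ 4 * HH l B * l2 / l + 4 * (B + 4) * HH l B * l2 / l := by linarith
    _ = _ := by ring

end Pool.Agent.Helper9.GW
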