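import Pool.Agent.Helper9.GW.Est

/-!
# The covering theorem
-/

set_option autoImplicit false

namespace Pool.Agent.Helper9.GW

open Finset Nat

variable {k : ℕ} {l l2 l3 : ℝ}

/-- sieve level -/
noncomputable def ZZ (l : ℝ) : ℕ := ⌊Real.exp (l / 12)⌋₊

theorem Par.ZZ_facts (h : Par k l l2 l3) :
    2 ≤ ZZ l ∧ ZZ l ≤ zz l ∧ l / 24 ≤ Real.log (ZZ l) ∧ (ZZ l : ℝ) ^ 6 ≤ Real.exp (l / 2) := by
  obtain ⟨e1, e2, e3, g1, g2, g3⟩ := h.facts
  obtain ⟨z1, z2, z3⟩ := h.zz_facts
  have h1 := Real.add_one_le_exp (l / 12)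
  have hE : 4 ≤ Real.exp (l / 12) := by linarith
  have hfl := Nat.lt_floor_add_one (Real.exp (l / 12))
  have hfu : (ZZ l : ℝ) ≤ Real.exp (l / 12) := by
    unfold ZZ
    exact Nat.floor_le (Real.exp_pos _).le
  have hfl' : Real.exp (l / 12) / 2 ≤ (ZZ l : ℝ) := by
    unfold ZZ
    linarith
  refine ⟨?_, ?_, ?_, ?_⟩
  · have : (2 : ℝ) ≤ ZZ l := by linarith
    exact_mod_cast this
  · have h2 : Real.exp (l / 12) ≤ Real.exp (l / 2) := Real.exp_le_exp.2 (by linarith)
    have : (ZZ l : ℝ) ≤ zz l := by linarith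
    exact_mod_cast this
  · have h2 : Real.log (Real.exp (l / 12) / 2) ≤ Real.log (ZZ l) :=
      Real.log_le_log (by positivity) hfl'
    rw [Real.log_div (Real.exp_pos _).ne' (by norm_num), Real.log_exp] at h2
    have := Real.log_two_lt_d9
    linarith
  · calc (ZZ l : ℝ) ^ 6 ≤ Real.exp (l / 12) ^ 6 := pow_le_pow_left₀ (Nat.cast_nonneg _) hfu 6
      _ = Real.exp (l / 2) := by
        rw [← Real.exp_nat_mul]
        congr 1
        push_cast
        ring

theorem Par.small_le (h : Par k l l2 l3) (B : ℕ) {q : ℕ} (hq : q ≤ HH l B) :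
    ((shifts (2 ^ bb l l2 l3) (zz l) (HH l B) q).card : ℝ) ≤ 9 * (B + 5) * l2 / l * HH l B := by
  obtain ⟨e1, e2, e3, g1, g2, g3⟩ := h.facts
  obtain ⟨H1, H2, H3⟩ := h.HH_facts B
  have p1 := h.p1
  have h1 : ((shifts (2 ^ bb l l2 l3) (zz l) (HH l B) q).card : ℝ) ≤
      2 * ((free (2 ^ bb l l2 l3) (zz l) (HH l B)).card : ℝ) + 1 := by
    exact_mod_cast card_shifts_le (z₁ := 2 ^ bb l l2 l3) (z₂ := zz l) hq
  have h2 := h.free_le B
  have h3 : 1 ≤ (B + 5) * l2 / l * HH l B := by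
    have h4 : l ≤ HH l B := by
      have := Real.add_one_le_exp l
      linarith
    have h5 : 1 ≤ ((B : ℝ) + 5) * l2 := by nlinarith [Nat.cast_nonneg (α := ℝ) B]
    rw [div_mul_eq_mul_div, le_div_iff₀ p1, one_mul]
    nlinarith
  have e : 4 * ((B : ℝ) + 5) * HH l B * l2 / l = 4 * ((B + 5) * l2 / l * HH l B) := by ring
  rw [e] at h2
  calc _ ≤ _ := h1
    _ ≤ 2 * (4 * ((B + 5) * l2 / l * HH l B)) + (B + 5) * l2 / l * HH l B := by linarith
    _ = _ := by ring

theorem Par.large_le (h : Par k l l2 l3) (B : ℕ) (q : ℕ) :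
    ((shifts (2 ^ bb l l2 l3) (zz l) (HH l B) q).card : ℝ) ≤
      1441 * (bb l l2 l3 * Real.log 2) / l * HH l B := by
  obtain ⟨e1, e2, e3, g1, g2, g3⟩ := h.facts
  obtain ⟨b1, b2, b3⟩ := h.bb_facts
  obtain ⟨H1, H2, H3⟩ := h.HH_facts B
  obtain ⟨Z1, Z2, Z3, Z4⟩ := h.ZZ_facts
  have p1 := h.p1
  have p2 := h.p2
  have h3 := h.h3
  have h2b : 2 ≤ 2 ^ bb l l2 l3 := by
    calc 2 = 2 ^ 1 := rfl
      _ ≤ _ := Nat.pow_le_pow_right (by norm_num) b1
  have h1 := card_shifts_sieve (z₁ := 2 ^ bb l l2 l3) (z₂ := zz l) (H := HH l B) (q := q) h2b Z1 Z2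
  have hlogz : Real.log ((2 ^ bb l l2 l3 : ℕ) : ℝ) = bb l l2 l3 * Real.log 2 := by
    push_cast
    rw [Real.log_pow]
  rw [hlogz] at h1
  set β := (bb l l2 l3 : ℝ) * Real.log 2 with hβ
  have hβ1 : 1 ≤ β := by
    refine le_trans ?_ b3
    rw [le_div_iff₀ (by positivity)]
    nlinarith
  have hH0 : (0 : ℝ) < HH l B := lt_of_lt_of_le (Real.exp_pos _) H3
  have hlogZ : 0 < Real.log (ZZ l) := by linarith
  have h4 : 60 * (HH l B : ℝ) * β / Real.log (ZZ l) ≤ 1440 * β / l * HH l B := by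
    rw [div_le_iff₀ hlogZ]
    have h5 : 1440 * β / l * HH l B * (l / 24) = 60 * HH l B * β := by
      field_simp
      norm_num
    calc 60 * (HH l B : ℝ) * β = 1440 * β / l * HH l B * (l / 24) := h5.symm
      _ ≤ _ := mul_le_mul_of_nonneg_left Z3 (by positivity)
  have h6 : Real.exp (l / 2) ≤ β / l * HH l B := by
    have hl : 1 ≤ l := by linarith
    have h7 : l ≤ Real.exp (l / 2) := by
      have := h.grow
      have h8 : l ≤ l ^ 4 := by
        have := pow_le_pow_right₀ hl (show 1 ≤ 4 by norm_num)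
        simpa using this
      linarith
    have hsplit : Real.exp l = Real.exp (l / 2) * Real.exp (l / 2) := by
      rw [← Real.exp_add]; congr 1; ring
    rw [div_mul_eq_mul_div, le_div_iff₀ p1]
    have h9 : Real.exp (l / 2) * l ≤ Real.exp l := by
      rw [hsplit]
      exact mul_le_mul_of_nonneg_left h7 (Real.exp_pos _).le
    nlinarith
  calc _ ≤ _ := h1
    _ ≤ 1440 * β / l * HH l B + β / l * HH l B := add_le_add h4 (Z4.trans h6)
    _ = _ := by ring

/-- the numerical inequality -/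
theorem Par.final (h : Par k l l2 l3) (B : ℕ) {s t : ℝ} (hs : 0 ≤ s) (ht : 0 ≤ t)
    (hc : l2 ^ 2 / (l * l3) * s + t ≤ k / (23056 * (B + 5))) :
    s * (9 * (B + 5) * l2 / l) + t * (1441 * (bb l l2 l3 * Real.log 2) / l) ≤
      ((Nat.primeCounting k : ℝ) - 2 * Nat.primeCounting (zz l)) *
        (bb l l2 l3 * Real.log 2 / 2) := by
  obtain ⟨e1, e2, e3, g1, g2, g3⟩ := h.facts
  obtain ⟨b1, b2, b3⟩ := h.bb_facts
  obtain ⟨z1, z2, z3⟩ := h.zz_facts
  have p1 := h.p1
  have p2 := h.p2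
  have h3 := h.h3
  have hB : (0 : ℝ) ≤ B := Nat.cast_nonneg B
  have hk : (0 : ℝ) < k := by exact_mod_cast h.kpos
  set β := (bb l l2 l3 : ℝ) * Real.log 2 with hβ
  have hβ0 : 0 < β := by
    refine lt_of_lt_of_le ?_ b3
    positivity
  have hpi : (Nat.primeCounting (zz l) : ℝ) ≤ k / l ^ 2 := by
    refine le_trans ?_ (z2.trans (le_of_eq (by rw [e1])))
    have : Nat.primeCounting (zz l) ≤ zz l := by
      rw [← Nat.primesLE_card_eq_primeCounting]
      have h5 : Nat.primesLE (zz l) ⊆ Icc 1 (zz l) := by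
        intro p hp
        rw [Nat.mem_primesLE] at hp
        rw [mem_Icc]
        exact ⟨hp.2.pos, hp.1⟩
      simpa using card_le_card h5
    exact_mod_cast this
  have hlow := h.low
  have hdiff : (k : ℝ) / (4 * l) ≤ (Nat.primeCounting k : ℝ) - 2 * Nat.primeCounting (zz l) := by
    have h5 : 2 * ((k : ℝ) / l ^ 2) ≤ k / (4 * l) := by
      rw [mul_div_assoc', div_le_div_iff₀ (by positivity) (by positivity)]
      have h6 : 8 * l ≤ l ^ 2 := by nlinarith
      nlinarith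
    have h7 : (k : ℝ) / (2 * l) = k / (4 * l) + k / (4 * l) := by
      field_simp
      norm_num
    linarith
  have hstep : (k : ℝ) / (4 * l) * (β / 2) ≤
      ((Nat.primeCounting k : ℝ) - 2 * Nat.primeCounting (zz l)) * (β / 2) :=
    mul_le_mul_of_nonneg_right hdiff (by positivity)
  refine le_trans ?_ hstep
  set κ := (k : ℝ) / (23056 * (B + 5)) with hκ
  have hκ0 : 0 < κ := by positivity
  have hκk : k = 23056 * (B + 5) * κ := by
    rw [hκ]
    field_simp
  have hs1 : l2 ^ 2 / (l * l3) * s ≤ κ := by linarith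
  have ht1 : t ≤ κ := by
    have : 0 ≤ l2 ^ 2 / (l * l3) * s := by positivity
    linarith
  -- first term
  have hfirst : s * (9 * (B + 5) * l2 / l) ≤ k / (16 * l) * β := by
    have h5 : s * (9 * (B + 5) * l2 / l) = 9 * (B + 5) * (l2 ^ 2 / (l * l3) * s) * (l3 / l2) := by
      field_simp
    rw [h5]
    have h6 : 9 * (B + 5) * (l2 ^ 2 / (l * l3) * s) * (l3 / l2) ≤
        9 * (B + 5) * κ * (l3 / l2) := by
      gcongr
    refine h6.trans ?_
    have h7 : k / (16 * l) * (l * l3 / (16 * l2)) ≤ k / (16 * l) * β :=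
      mul_le_mul_of_nonneg_left b3 (by positivity)
    refine le_trans ?_ h7
    have h8 : (k : ℝ) / (16 * l) * (l * l3 / (16 * l2)) = k / 256 * (l3 / l2) := by
      field_simp
      norm_num
    rw [h8, hκk]
    have h9 : 9 * ((B : ℝ) + 5) * κ ≤ 23056 * (B + 5) * κ / 256 := by
      have : 0 < ((B : ℝ) + 5) * κ := by positivity
      nlinarith
    exact mul_le_mul_of_nonneg_right h9 (by positivity)
  have hsecond : t * (1441 * β / l) ≤ k / (16 * l) * β := by
    have h5 : t * (1441 * β / l) ≤ κ * (1441 * β / l) :=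
      mul_le_mul_of_nonneg_right ht1 (by positivity)
    refine h5.trans ?_
    have h6 : κ * (1441 * β / l) = (1441 * κ) * (β / l) := by ring
    have h7 : (k : ℝ) / (16 * l) * β = (k / 16) * (β / l) := by
      field_simp
    rw [h6, h7]
    refine mul_le_mul_of_nonneg_right ?_ (by positivity)
    rw [hκk]
    have : 0 ≤ (B : ℝ) * κ := by positivity
    nlinarith
  have hsum : (k : ℝ) / (4 * l) * (β / 2) = k / (16 * l) * β + k / (16 * l) * β := by
    field_simp
    norm_num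
  rw [hsum]
  exact add_le_add hfirst hsecond

open Classical in
/-- the covering theorem for arbitrary finite sets of odd primes -/
theorem Par.key (h : Par k l l2 l3) (B : ℕ) (S : Finset ℕ) (hS : ∀ q ∈ S, q.Prime ∧ q ≠ 2)
    (Y : ℕ) (hY : (Y : ℝ) ≤ k * l ^ B)
    (hc : l2 ^ 2 / (l * l3) * ((S.filter (fun q => q ≤ Y)).card : ℝ) +
      ((S.filter (fun q => ¬ q ≤ Y)).card : ℝ) ≤ k / (23056 * (B + 5))) (X : ℕ) :
    X / modulus k ≤ k + Nat.primeCounting k +
      ((Finset.Ioc 0 X).filter (fun n => ∀ q ∈ S, ∀ r : ℕ, r.Prime → q + r ≠ 2 * n)).card := by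
  obtain ⟨e1, e2, e3, g1, g2, g3⟩ := h.facts
  obtain ⟨b1, b2, b3⟩ := h.bb_facts
  obtain ⟨z1, z2, z3⟩ := h.zz_facts
  obtain ⟨H1, H2, H3⟩ := h.HH_facts B
  obtain ⟨Z1, Z2, Z3, Z4⟩ := h.ZZ_facts
  have p1 := h.p1
  have p2 := h.p2
  have h3 := h.h3
  have hl : 1 ≤ l := by linarith
  have hH0 : (0 : ℝ) < HH l B := lt_of_lt_of_le (Real.exp_pos _) H3
  have hH1 : 1 ≤ HH l B := by exact_mod_cast hH0
  have hYH : Y ≤ HH l B := by
    unfold HH
    refine Nat.le_floor ?_
    rw [← e1]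
    exact hY
  obtain ⟨h0, hh0⟩ := exists_shift (2 ^ bb l l2 l3) (zz l) (HH l B) hH1 S
    (fun q => if q ≤ Y then 9 * (B + 5) * l2 / l * HH l B
      else 1441 * (bb l l2 l3 * Real.log 2) / l * HH l B) (by
      intro q _
      by_cases hqY : q ≤ Y
      · simp only [if_pos hqY]
        exact h.small_le B (hqY.trans hYH)
      · simp only [if_neg hqY]
        exact h.large_le B q)
  have hzz2 : 2 ≤ zz l := le_trans Z1 Z2
  have hzk : zz l ≤ k := by
    have h5 : (zz l : ℝ) ≤ k := by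
      refine z2.trans ?_
      rw [e1, div_le_iff₀ (by positivity)]
      nlinarith [Real.exp_pos l, one_le_pow₀ hl (n := 2)]
    exact_mod_cast h5
  have hbz : 2 ^ bb l l2 l3 ≤ zz l := by
    have h5 : ((2 ^ bb l l2 l3 : ℕ) : ℝ) ≤ zz l := by
      refine le_trans ?_ z1
      rw [← Real.log_le_iff_le_exp (by positivity)]
      push_cast
      rw [Real.log_pow]
      refine b2.trans ?_
      rw [div_le_div_iff₀ (by positivity) (by norm_num)]
      nlinarith
    exact_mod_cast h5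
  have hpi0 : 0 ≤ (Nat.primeCounting k : ℝ) - 2 * Nat.primeCounting (zz l) := by
    have h5 := h.final B (s := 0) (t := 0) le_rfl le_rfl (by
      rw [mul_zero, add_zero]
      have : (0 : ℝ) < k := by exact_mod_cast h.kpos
      positivity)
    rw [zero_mul, zero_mul, add_zero] at h5
    have h6 : 0 < (bb l l2 l3 : ℝ) * Real.log 2 / 2 := by
      have : 0 < (bb l l2 l3 : ℝ) * Real.log 2 := lt_of_lt_of_le (by positivity) b3
      linarith
    by_contra hneg
    push Not at hneg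
    have := mul_neg_of_neg_of_pos hneg h6
    linarith
  refine cover_count (zz l) k hzz2 hzk (medium (2 ^ bb l l2 l3) (zz l)) (filter_subset _ _)
    (fun _ => h0) S hS ?_ X
  refine le_trans ?_ (bound_lower b1 hbz hpi0)
  have h4 := h.final B (Nat.cast_nonneg (S.filter (fun q => q ≤ Y)).card)
    (Nat.cast_nonneg (S.filter (fun q => ¬ q ≤ Y)).card) hc
  refine le_trans (le_of_eq ?_) (hh0.trans (le_trans (le_of_eq ?_) h4))
  · congr!
  · rw [sum_ite, sum_const, sum_const, nsmul_eq_mul, nsmul_eq_mul, div_eq_iff hH0.ne']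
    ring

end Pool.Agent.Helper9.GW
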