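import Pool.Agent.Helper9.GW.Shift
import Pool.Agent.Helper52.Smooth

/-!
# Choice of parameters
-/

set_option autoImplicit false

namespace Pool.Agent.Helper9.GW

open Finset Nat

open Helper52 in
theorem bound_lower {b z₂ k : ℕ} (hb : 1 ≤ b) (hz : 2 ^ b ≤ z₂)
    (h0 : 0 ≤ (Nat.primeCounting k : ℝ) - 2 * Nat.primeCounting z₂) :
    ((Nat.primeCounting k : ℝ) - 2 * Nat.primeCounting z₂) * (b * Real.log 2 / 2) ≤
      bound (medium (2 ^ b) z₂) z₂ k := by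
  have h2b : 2 ≤ 2 ^ b := by
    calc 2 = 2 ^ 1 := rfl
      _ ≤ 2 ^ b := Nat.pow_le_pow_right (by norm_num) hb
  have hset : oddPrimes z₂ \ medium (2 ^ b) z₂ = oddPrimes (2 ^ b) := by
    ext ℓ
    rw [mem_sdiff, mem_oddPrimes, mem_medium h2b, mem_oddPrimes]
    constructor
    · rintro ⟨⟨h1, h2, h3⟩, h4⟩
      refine ⟨h1, h2, ?_⟩
      by_contra h5
      exact h4 ⟨h1, by omega, h3⟩
    · rintro ⟨h1, h2, h3⟩
      exact ⟨⟨h1, h2, by omega⟩, fun h4 => by omega⟩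
  unfold bound
  rw [hset]
  refine mul_le_mul_of_nonneg_left ?_ h0
  have hl3 : ∀ ℓ ∈ oddPrimes (2 ^ b), (3 : ℝ) ≤ ℓ := by
    intro ℓ hℓ
    have h1 := mem_oddPrimes.1 hℓ
    have h2 := h1.1.two_le
    exact_mod_cast (by omega : 3 ≤ ℓ)
  have h1 : ∏ ℓ ∈ oddPrimes (2 ^ b), (1 - 1 / (ℓ : ℝ))⁻¹ ≤
      ∏ ℓ ∈ oddPrimes (2 ^ b), ((ℓ : ℝ) - 1) / ((ℓ : ℝ) - 2) := by
    refine prod_le_prod (fun ℓ hℓ => ?_) fun ℓ hℓ => ?_
    · have := hl3 ℓ hℓ
      rw [inv_nonneg, sub_nonneg, div_le_one (by linarith)]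
      linarith
    · have := hl3 ℓ hℓ
      have e : (1 - 1 / (ℓ : ℝ))⁻¹ = (ℓ : ℝ) / (ℓ - 1) := by
        rw [one_sub_div (by linarith : (ℓ : ℝ) ≠ 0), inv_div]
      rw [e, div_le_div_iff₀ (by linarith) (by linarith)]
      nlinarith
  refine le_trans ?_ h1
  rw [prod_inv_distrib]
  have h2 := prod_upper (b := b) hb
  have h3 : pr 0 (2 ^ b) = insert 2 (oddPrimes (2 ^ b)) := by
    ext q
    rw [mem_pr, mem_insert, mem_oddPrimes]
    constructor
    · rintro ⟨_, h5, h6⟩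
      by_cases h : q = 2
      · exact Or.inl h
      · exact Or.inr ⟨h6, h, h5⟩
    · rintro (rfl | ⟨h4, h5, h6⟩)
      · exact ⟨by norm_num, h2b, Nat.prime_two⟩
      · exact ⟨h4.pos, h6, h4⟩
  rw [h3, prod_insert (fun h => (mem_oddPrimes.1 h).2.1 rfl)] at h2
  have hlog2 : 0 < Real.log 2 := Real.log_pos (by norm_num)
  have hb0 : (0 : ℝ) < b := by exact_mod_cast hb
  set P := ∏ x ∈ oddPrimes (2 ^ b), (1 - 1 / (x : ℝ)) with hP
  have hP0 : 0 < P := by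
    refine prod_pos fun ℓ hℓ => ?_
    have := hl3 ℓ hℓ
    rw [sub_pos, div_lt_one (by linarith)]
    linarith
  have h4 : P ≤ 2 / (b * Real.log 2) := by
    have h5 : (1 - 1 / ((2 : ℕ) : ℝ)) * P = P / 2 := by
      push_cast
      ring
    rw [h5] at h2
    have h6 : 2 / (b * Real.log 2) = 2 * (1 / (b * Real.log 2)) := by ring
    rw [h6]
    linarith
  rw [le_inv_comm₀ (by positivity) hP0, inv_div]
  exact h4

/-- the size conditions -/
structure Par (k : ℕ) (l l2 l3 : ℝ) : Prop where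
  hl : Real.log k = l
  hl2 : Real.log l = l2
  hl3 : Real.log l2 = l3
  p1 : 0 < l
  p2 : 0 < l2
  h3 : 8 ≤ l3
  kpos : 0 < k
  grow : l ^ 4 ≤ Real.exp (l / 2)
  cheb : ∀ t : ℝ, Real.exp (l / 2) ≤ t → (Nat.primeCounting ⌊t⌋₊ : ℝ) ≤ 2 * t / Real.log t
  low : (k : ℝ) / (2 * l) ≤ Nat.primeCounting k

theorem exp_ge {t : ℝ} (ht : 0 ≤ t) : (1 + t / 4) ^ 4 ≤ Real.exp t := by
  have h1 := Real.add_one_le_exp (t / 4)
  have h2 : Real.exp t = Real.exp (t / 4) ^ 4 := by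
    rw [← Real.exp_nat_mul]
    congr 1
    push_cast
    ring
  rw [h2]
  exact pow_le_pow_left₀ (by positivity) (by linarith) 4

theorem Par.facts {k : ℕ} {l l2 l3 : ℝ} (h : Par k l l2 l3) :
    (k : ℝ) = Real.exp l ∧ l = Real.exp l2 ∧ l2 = Real.exp l3 ∧ 6 * l3 ≤ l2 ∧ 48 ≤ l2 ∧
      32 * l2 ≤ l := by
  have e1 : (k : ℝ) = Real.exp l := by
    rw [← h.hl, Real.exp_log (by exact_mod_cast h.kpos)]
  have e2 : l = Real.exp l2 := by rw [← h.hl2, Real.exp_log h.p1]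
  have e3 : l2 = Real.exp l3 := by rw [← h.hl3, Real.exp_log h.p2]
  have h3 := h.h3
  have g1 : 6 * l3 ≤ l2 := by
    have h1 := exp_ge (t := l3) (by linarith)
    rw [← e3] at h1
    have h2 : 27 * (1 + l3 / 4) ≤ (1 + l3 / 4) ^ 4 := by
      have h4 : (27 : ℝ) ≤ (1 + l3 / 4) ^ 3 := by
        have : (3 : ℝ) ^ 3 ≤ (1 + l3 / 4) ^ 3 :=
          pow_le_pow_left₀ (by norm_num) (by linarith) 3
        linarith
      nlinarith
    linarith
  have g2 : 48 ≤ l2 := by linarith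
  have g3 : 32 * l2 ≤ l := by
    have h1 := exp_ge (t := l2) (by linarith)
    rw [← e2] at h1
    have h2 : 2197 * (1 + l2 / 4) ≤ (1 + l2 / 4) ^ 4 := by
      have h4 : (2197 : ℝ) ≤ (1 + l2 / 4) ^ 3 := by
        have : (13 : ℝ) ^ 3 ≤ (1 + l2 / 4) ^ 3 :=
          pow_le_pow_left₀ (by norm_num) (by linarith) 3
        linarith
      nlinarith
    linarith
  exact ⟨e1, e2, e3, g1, g2, g3⟩

/-- the exponent of the smoothness bound -/
noncomputable def bb (l l2 l3 : ℝ) : ℕ := ⌊l * l3 / (8 * l2 * Real.log 2)⌋₊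

theorem Par.bb_facts {k : ℕ} {l l2 l3 : ℝ} (h : Par k l l2 l3) :
    1 ≤ bb l l2 l3 ∧ (bb l l2 l3 : ℝ) * Real.log 2 ≤ l * l3 / (8 * l2) ∧
      l * l3 / (16 * l2) ≤ (bb l l2 l3 : ℝ) * Real.log 2 := by
  obtain ⟨e1, e2, e3, g1, g2, g3⟩ := h.facts
  have h3 := h.h3
  have p1 := h.p1
  have p2 := h.p2
  have hlog2 : 0 < Real.log 2 := Real.log_pos (by norm_num)
  have hlog2' : Real.log 2 < 1 := by
    have := Real.log_two_lt_d9
    linarith
  have hx : 2 ≤ l * l3 / (8 * l2 * Real.log 2) := by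
    rw [le_div_iff₀ (by positivity)]
    have h5 : 8 * l2 * Real.log 2 ≤ 8 * l2 := by nlinarith
    nlinarith
  have hfl : l * l3 / (8 * l2 * Real.log 2) - 1 < (bb l l2 l3 : ℝ) := by
    unfold bb
    have := Nat.lt_floor_add_one (l * l3 / (8 * l2 * Real.log 2))
    linarith
  have hfu : (bb l l2 l3 : ℝ) ≤ l * l3 / (8 * l2 * Real.log 2) := by
    unfold bb
    exact Nat.floor_le (by linarith)
  have e4 : l * l3 / (8 * l2 * Real.log 2) * Real.log 2 = l * l3 / (8 * l2) := by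
    field_simp
  refine ⟨?_, ?_, ?_⟩
  · unfold bb
    rw [Nat.one_le_floor_iff]
    linarith
  · rw [← e4]
    exact mul_le_mul_of_nonneg_right hfu hlog2.le
  · have h6 : l * l3 / (8 * l2 * Real.log 2) / 2 ≤ (bb l l2 l3 : ℝ) := by linarith
    have h7 := mul_le_mul_of_nonneg_right h6 hlog2.le
    have e5 : l * l3 / (8 * l2 * Real.log 2) / 2 * Real.log 2 = l * l3 / (16 * l2) := by
      field_simp
      norm_num
    rwa [e5] at h7

end Pool.Agent.Helper9.GW
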