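import Pool.Agent.Helper9.GW.Base
import Pool.Agent.Helper24.PrimePairs

/-!
# One residue for all medium primes, averaged over an interval
-/

set_option autoImplicit false

namespace Pool.Agent.Helper9.GW

open Finset Nat

/-- the odd primes in `(z₁, z₂]` -/
def medium (z₁ z₂ : ℕ) : Finset ℕ := (oddPrimes z₂).filter (fun ℓ => z₁ < ℓ)

theorem mem_medium {z₁ z₂ ℓ : ℕ} (hz : 2 ≤ z₁) : ℓ ∈ medium z₁ z₂ ↔ ℓ.Prime ∧ z₁ < ℓ ∧ ℓ ≤ z₂ := by
  unfold medium
  rw [mem_filter, mem_oddPrimes]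
  constructor
  · rintro ⟨⟨h1, h2, h3⟩, h4⟩
    exact ⟨h1, h4, h3⟩
  · rintro ⟨h1, h2, h3⟩
    exact ⟨⟨h1, by omega, h3⟩, h2⟩

/-- the shifts `h ≤ H` which are not congruent to `q` modulo a medium prime -/
def shifts (z₁ z₂ H q : ℕ) : Finset ℕ :=
  (Icc 1 H).filter (fun h => ∀ ℓ ∈ medium z₁ z₂, ¬ q ≡ h [MOD ℓ])

/-- the integers `m ≤ H` without medium prime factor -/
def free (z₁ z₂ H : ℕ) : Finset ℕ :=
  (Icc 1 H).filter (fun m => ∀ ℓ ∈ medium z₁ z₂, ¬ ℓ ∣ m)

/-- averaging -/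
theorem exists_shift (z₁ z₂ H : ℕ) (hH : 1 ≤ H) (B : Finset ℕ) (w : ℕ → ℝ)
    (hw : ∀ q ∈ B, ((shifts z₁ z₂ H q).card : ℝ) ≤ w q) :
    ∃ h : ℕ, ((B.filter (fun q => ∀ ℓ ∈ medium z₁ z₂, ¬ q ≡ h [MOD ℓ])).card : ℝ) ≤
      (∑ q ∈ B, w q) / H := by
  classical
  have hHr : (0 : ℝ) < H := by exact_mod_cast hH
  by_contra hcon
  push Not at hcon
  have h1 : ∑ h ∈ Icc 1 H, (∑ q ∈ B, w q) / H <
      ∑ h ∈ Icc 1 H, ((B.filter (fun q => ∀ ℓ ∈ medium z₁ z₂, ¬ q ≡ h [MOD ℓ])).card : ℝ) :=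
    sum_lt_sum_of_nonempty ⟨1, by rw [mem_Icc]; omega⟩ fun h _ => hcon h
  rw [sum_const, Nat.card_Icc, Nat.add_sub_cancel, nsmul_eq_mul, mul_div_cancel₀ _ hHr.ne'] at h1
  have h2 : ∑ h ∈ Icc 1 H, ((B.filter (fun q => ∀ ℓ ∈ medium z₁ z₂, ¬ q ≡ h [MOD ℓ])).card : ℝ) =
      ∑ q ∈ B, ((shifts z₁ z₂ H q).card : ℝ) := by
    simp only [shifts, card_filter, Nat.cast_sum]
    rw [sum_comm]
  rw [h2] at h1
  exact absurd (sum_le_sum hw) (not_le.2 h1)

/-- small `q` -/
theorem card_shifts_le {z₁ z₂ H q : ℕ} (hq : q ≤ H) :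
    (shifts z₁ z₂ H q).card ≤ 2 * (free z₁ z₂ H).card + 1 := by
  classical
  have hsub : shifts z₁ z₂ H q ⊆ ((free z₁ z₂ H).image (fun m => q - m) ∪
      (free z₁ z₂ H).image (fun m => q + m)) ∪ {q} := by
    intro h hh
    unfold shifts at hh
    rw [mem_filter, mem_Icc] at hh
    obtain ⟨⟨h1, h2⟩, h3⟩ := hh
    rw [mem_union, mem_union, mem_image, mem_image, mem_singleton]
    rcases lt_trichotomy h q with hlt | heq | hgt
    · refine Or.inl (Or.inl ⟨q - h, ?_, by omega⟩)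
      unfold free
      rw [mem_filter, mem_Icc]
      refine ⟨by omega, fun ℓ hℓ hd => h3 ℓ hℓ ?_⟩
      exact ((Nat.modEq_iff_dvd' hlt.le).2 hd).symm
    · exact Or.inr heq
    · refine Or.inl (Or.inr ⟨h - q, ?_, by omega⟩)
      unfold free
      rw [mem_filter, mem_Icc]
      refine ⟨by omega, fun ℓ hℓ hd => h3 ℓ hℓ ?_⟩
      exact (Nat.modEq_iff_dvd' hgt.le).2 hd
  have h1 := card_le_card hsub
  have h2 := card_union_le ((free z₁ z₂ H).image (fun m => q - m) ∪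
      (free z₁ z₂ H).image (fun m => q + m)) {q}
  have h3 := card_union_le ((free z₁ z₂ H).image (fun m => q - m))
      ((free z₁ z₂ H).image (fun m => q + m))
  have h4 := Finset.card_image_le (s := free z₁ z₂ H) (f := fun m => q - m)
  have h5 := Finset.card_image_le (s := free z₁ z₂ H) (f := fun m => q + m)
  rw [card_singleton] at h2
  omega

/-- integers without medium prime factor are smooth or have a large prime factor -/
theorem card_free_le {z₁ z₂ H : ℕ} (hz : 2 ≤ z₁) (hz2 : 1 ≤ z₂) :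
    (free z₁ z₂ H).card ≤ ((Icc 1 H).filter (fun n : ℕ => ∀ q ∈ n.primeFactors, q ≤ z₁)).card +
      ∑ m ∈ Icc 1 (H / z₂), Nat.primeCounting (H / m) := by
  classical
  have hsub : free z₁ z₂ H ⊆ ((Icc 1 H).filter (fun n : ℕ => ∀ q ∈ n.primeFactors, q ≤ z₁)) ∪
      (Icc 1 (H / z₂)).biUnion (fun m => (Nat.primesLE (H / m)).image (fun P => P * m)) := by
    intro n hn
    unfold free at hn
    rw [mem_filter, mem_Icc] at hn
    obtain ⟨⟨h1, h2⟩, h3⟩ := hn
    by_cases hs : ∀ q ∈ n.primeFactors, q ≤ z₁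
    · exact mem_union_left _ (mem_filter.2 ⟨mem_Icc.2 ⟨h1, h2⟩, hs⟩)
    · push Not at hs
      obtain ⟨P, hP, hPz⟩ := hs
      have hPp := Nat.prime_of_mem_primeFactors hP
      have hPd := Nat.dvd_of_mem_primeFactors hP
      have hP2 : z₂ < P := by
        by_contra hle
        exact h3 P ((mem_medium hz).2 ⟨hPp, hPz, by omega⟩) hPd
      obtain ⟨m, rfl⟩ := hPd
      have hm : 1 ≤ m := by
        rcases Nat.eq_zero_or_pos m with h | h
        · rw [h] at h1; simp at h1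
        · exact h
      refine mem_union_right _ (mem_biUnion.2 ⟨m, ?_, ?_⟩)
      · rw [mem_Icc]
        refine ⟨hm, ?_⟩
        rw [Nat.le_div_iff_mul_le (by omega)]
        calc m * z₂ ≤ m * P := Nat.mul_le_mul_left _ hP2.le
          _ = P * m := mul_comm _ _
          _ ≤ H := h2
      · rw [mem_image]
        refine ⟨P, ?_, rfl⟩
        rw [Nat.mem_primesLE]
        exact ⟨(Nat.le_div_iff_mul_le hm).2 h2, hPp⟩
  refine (card_le_card hsub).trans ((card_union_le _ _).trans ?_)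
  refine Nat.add_le_add_left (card_biUnion_le.trans (sum_le_sum fun m _ => ?_)) _
  refine Finset.card_image_le.trans ?_
  rw [Nat.primesLE_card_eq_primeCounting]

/-- forbidden classes -/
def Om (z₁ q p : ℕ) : Finset ℕ := if z₁ < p then {q % p} else ∅

open Helper24 in
/-- all `q`: Selberg's sieve -/
theorem card_shifts_sieve {z₁ z₂ H q Z : ℕ} (hz : 2 ≤ z₁) (hZ : 2 ≤ Z) (hZz : Z ≤ z₂) :
    ((shifts z₁ z₂ H q).card : ℝ) ≤ 60 * H * Real.log z₁ / Real.log Z + (Z : ℝ) ^ 6 := by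
  have hlog : 0 < Real.log Z := Real.log_pos (by exact_mod_cast (by omega : 1 < Z))
  have hlz : 0 < Real.log z₁ := Real.log_pos (by exact_mod_cast (by omega : 1 < z₁))
  have hΩ : ∀ p, Nat.Prime p → p ≤ Z → (∀ c ∈ Om z₁ q p, c < p) ∧ (Om z₁ q p).card < p := by
    intro p hp _
    unfold Om
    split_ifs with h
    · refine ⟨fun c hc => ?_, ?_⟩
      · rw [mem_singleton] at hc
        rw [hc]
        exact Nat.mod_lt _ hp.pos
      · rw [card_singleton]
        exact hp.one_lt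
    · simp [hp.pos]
  have h1 := residue_sieve (A := 0) (M := H) (by omega : 1 ≤ Z) hΩ (shifts z₁ z₂ H q) ?_ ?_
  rotate_left
  · intro h hh
    unfold shifts at hh
    rw [mem_filter, mem_Icc] at hh
    rw [mem_Ioc]
    omega
  · intro h hh p hp hpZ
    unfold shifts at hh
    rw [mem_filter, mem_Icc] at hh
    unfold Om
    split_ifs with hzp
    · rw [mem_singleton]
      intro hc
      exact hh.2 p ((mem_medium hz).2 ⟨hp, hzp, by omega⟩) hc.symm
    · simp
  set g : ℕ → ℝ := fun p => ((Om z₁ q p).card : ℝ) / ((p : ℝ) - (Om z₁ q p).card) with hg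
  have hg0 : ∀ p, p.Prime → p ≤ Z → 0 ≤ g p := by
    intro p hp hpZ
    have : ((Om z₁ q p).card : ℝ) < p := by exact_mod_cast (hΩ p hp hpZ).2
    have : (0 : ℝ) < (p : ℝ) - (Om z₁ q p).card := sub_pos.2 this
    rw [hg]; positivity
  have h2 : Fsum Z (fun p => 1 / (p : ℝ)) ≤
      Fsum Z (fun p => g p + if p ∈ primesLE z₁ then 1 / (p : ℝ) else 0) := by
    refine Fsum_mono _ (fun p _ _ => by positivity) fun p hp hpZ => ?_
    have hp1 : (1 : ℝ) < p := by exact_mod_cast hp.one_lt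
    by_cases hpz : z₁ < p
    · have h3 : g p = 1 / ((p : ℝ) - 1) := by
        rw [hg]
        simp only [Om, if_pos hpz, card_singleton, Nat.cast_one]
      rw [if_neg (fun h => by rw [Nat.mem_primesLE] at h; omega), add_zero, h3]
      exact one_div_le_one_div_of_le (by linarith) (by linarith)
    · rw [if_pos (Nat.mem_primesLE.2 ⟨by omega, hp⟩)]
      have := hg0 p hp hpZ
      linarith
  have h3 := Fsum_add_le Z hg0 (primesLE z₁) (fun p hp => (Nat.mem_primesLE.1 hp).2)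
    (fun p => 1 / (p : ℝ)) (fun p _ => by positivity)
  have h4 := log_le_two_mul_Fsum_inv Z
  have h5 := prod_one_add_inv_le z₁ hz
  have h6 : Fsum Z g = ∑ l ∈ (Icc 1 Z).filter Squarefree, hterm (Om z₁ q) l := rfl
  set G := ∑ l ∈ (Icc 1 Z).filter Squarefree, hterm (Om z₁ q) l with hG
  have hG0 : 0 ≤ G := by
    rw [← h6]
    refine sum_nonneg fun l hl => prod_nonneg fun p hp => ?_
    rw [mem_sqf] at hl
    exact hg0 p (Nat.prime_of_mem_primeFactors hp)
      ((Nat.le_of_dvd hl.1.1 (Nat.dvd_of_mem_primeFactors hp)).trans hl.1.2)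
  have h7 : Real.log Z ≤ 60 * Real.log z₁ * G := by
    rw [h6] at h3
    have h8 : (∏ p ∈ primesLE z₁, (1 + 1 / (p : ℝ))) * G ≤ 30 * Real.log z₁ * G :=
      mul_le_mul_of_nonneg_right h5 hG0
    linarith
  have hGpos : 0 < G := by
    by_contra hneg
    have : G = 0 := le_antisymm (not_lt.1 hneg) hG0
    rw [this, mul_zero] at h7
    linarith
  refine h1.trans (add_le_add_left ?_ _)
  rw [div_le_div_iff₀ hGpos hlog]
  have hH0 : (0 : ℝ) ≤ H := Nat.cast_nonneg H
  calc (H : ℝ) * Real.log Z ≤ H * (60 * Real.log z₁ * G) := mul_le_mul_of_nonneg_left h7 hH0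
    _ = _ := by ring

end Pool.Agent.Helper9.GW
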